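import Mathlib

set_option autoImplicit false

namespace Pool.Agent.H714R3

open MvPolynomial

variable {n : ℕ}

/-- positive part exponent vector -/
noncomputable def pp (u : Fin n → ℤ) : Fin n →₀ ℕ :=
  Finsupp.equivFunOnFinite.symm (fun i => (u i).toNat)

/-- negative part exponent vector -/
noncomputable def np (u : Fin n → ℤ) : Fin n →₀ ℕ :=
  Finsupp.equivFunOnFinite.symm (fun i => (-u i).toNat)

@[simp] lemma pp_apply (u : Fin n → ℤ) (i : Fin n) : pp u i = (u i).toNat := by
  simp [pp]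

@[simp] lemma np_apply (u : Fin n → ℤ) (i : Fin n) : np u i = (-u i).toNat := by
  simp [np]

/-- the binomial of a lattice vector -/
noncomputable def bin (u : Fin n → ℤ) : MvPolynomial (Fin n) ℚ :=
  monomial (pp u) (1 : ℚ) - monomial (np u) (1 : ℚ)

/-- the integer vector of an exponent -/
def toZ (m : Fin n →₀ ℕ) : Fin n → ℤ := fun i => (m i : ℤ)

lemma toZ_add (a b : Fin n →₀ ℕ) : toZ (a + b) = toZ a + toZ b := by
  funext i; simp [toZ]

/-- class functional -/
noncomputable def ell (L : Submodule ℤ (Fin n → ℤ)) (c : (Fin n → ℤ) ⧸ L) :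
    MvPolynomial (Fin n) ℚ →ₗ[ℚ] ℚ :=
  open Classical in
  (basisMonomials (Fin n) ℚ).constr ℚ
    (fun m => if (Submodule.Quotient.mk (toZ m) : (Fin n → ℤ) ⧸ L) = c then (1 : ℚ) else 0)

open Classical in
lemma ell_monomial (L : Submodule ℤ (Fin n → ℤ)) (c : (Fin n → ℤ) ⧸ L) (m : Fin n →₀ ℕ) (a : ℚ) :
    ell L c (monomial m a) =
      a * (if (Submodule.Quotient.mk (toZ m) : (Fin n → ℤ) ⧸ L) = c then (1 : ℚ) else 0) := by
  have h : (monomial m a : MvPolynomial (Fin n) ℚ) = a • (basisMonomials (Fin n) ℚ m) := by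
    simp [coe_basisMonomials, smul_monomial]
  rw [h, map_smul, ell, Module.Basis.constr_basis, smul_eq_mul]

lemma ell_monomial_mul (L : Submodule ℤ (Fin n → ℤ)) (c : (Fin n → ℤ) ⧸ L) (e : Fin n →₀ ℕ) (a : ℚ)
    (f : MvPolynomial (Fin n) ℚ) :
    ell L c (monomial e a * f) = a * ell L (c - Submodule.Quotient.mk (toZ e)) f := by
  classical
  induction f using MvPolynomial.induction_on' with
  | monomial m b =>
    rw [monomial_mul, ell_monomial, ell_monomial]
    have : ((Submodule.Quotient.mk (toZ (e + m)) : (Fin n → ℤ) ⧸ L) = c) ↔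
        ((Submodule.Quotient.mk (toZ m) : (Fin n → ℤ) ⧸ L) = c - Submodule.Quotient.mk (toZ e)) := by
      rw [toZ_add, Submodule.Quotient.mk_add, eq_sub_iff_add_eq, add_comm]
    simp only [this]
    ring
  | add p q hp hq =>
    rw [mul_add, map_add, hp, hq, map_add]; ring

lemma ell_mul_eq_zero (L : Submodule ℤ (Fin n → ℤ)) (q f : MvPolynomial (Fin n) ℚ)
    (hf : ∀ c, ell L c f = 0) : ∀ c, ell L c (q * f) = 0 := by
  induction q using MvPolynomial.induction_on' with
  | monomial m b =>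
    intro c; rw [ell_monomial_mul, hf, mul_zero]
  | add p q hp hq =>
    intro c; rw [add_mul, map_add, hp, hq, add_zero]

lemma toZ_pp_sub_np (u : Fin n → ℤ) : toZ (pp u) - toZ (np u) = u := by
  funext i
  simp only [toZ, Pi.sub_apply, pp_apply, np_apply]
  omega

lemma ell_bin (L : Submodule ℤ (Fin n → ℤ)) (u : Fin n → ℤ) (hu : u ∈ L)
    (c : (Fin n → ℤ) ⧸ L) : ell L c (bin u) = 0 := by
  classical
  rw [bin, map_sub, ell_monomial, ell_monomial]
  have : (Submodule.Quotient.mk (toZ (pp u)) : (Fin n → ℤ) ⧸ L) =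
      Submodule.Quotient.mk (toZ (np u)) := by
    rw [Submodule.Quotient.eq, toZ_pp_sub_np]; exact hu
  rw [this]; ring

/-- the lattice ideal -/
noncomputable def latI (L : Submodule ℤ (Fin n → ℤ)) : Ideal (MvPolynomial (Fin n) ℚ) :=
  Ideal.span {p | ∃ u ∈ L, p =
        MvPolynomial.monomial (Finsupp.equivFunOnFinite.symm (fun i => (u i).toNat)) (1 : ℚ)
        - MvPolynomial.monomial (Finsupp.equivFunOnFinite.symm (fun i => (-u i).toNat)) (1 : ℚ)}

lemma bin_mem (L : Submodule ℤ (Fin n → ℤ)) {u : Fin n → ℤ} (hu : u ∈ L) : bin u ∈ latI L :=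
  Ideal.subset_span ⟨u, hu, rfl⟩

lemma ell_latI (L : Submodule ℤ (Fin n → ℤ)) (f : MvPolynomial (Fin n) ℚ) (hf : f ∈ latI L) :
    ∀ c, ell L c f = 0 := by
  unfold latI at hf
  induction hf using Submodule.span_induction with
  | mem x hx =>
    obtain ⟨u, hu, rfl⟩ := hx
    intro c; exact ell_bin L u hu c
  | zero => intro c; simp
  | add x y _ _ hx hy => intro c; rw [map_add, hx, hy, add_zero]
  | smul a x _ hx => intro c; exact ell_mul_eq_zero L a x hx c

/-- Every monomial of an element of the lattice ideal has a partner in its fibre. -/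
theorem fibre_lemma (L : Submodule ℤ (Fin n → ℤ)) (f : MvPolynomial (Fin n) ℚ)
    (hf : f ∈ latI L) (m : Fin n →₀ ℕ) (hm : m ∈ f.support) :
    ∃ m' ∈ f.support, m' ≠ m ∧ toZ m - toZ m' ∈ L := by
  classical
  by_contra hcon
  push Not at hcon
  have h0 := ell_latI L f hf (Submodule.Quotient.mk (toZ m))
  have hsum : f = ∑ v ∈ f.support, monomial v (coeff v f) := (support_sum_monomial_coeff f).symm
  rw [hsum, map_sum] at h0
  rw [Finset.sum_eq_single m] at h0
  · rw [ell_monomial, if_pos rfl, mul_one] at h0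
    exact (mem_support_iff.mp hm) h0
  · intro b hb hbm
    rw [ell_monomial, if_neg, mul_zero]
    intro hc
    have := (Submodule.Quotient.eq L).mp hc.symm
    exact hcon b hb hbm this
  · intro h; exact absurd hm h

lemma lex_lt_iff_pos (a b : Fin n →₀ ℕ) :
    (MonomialOrder.lex.toSyn b < MonomialOrder.lex.toSyn a) ↔
      ∃ c, 0 < (toZ a - toZ b) c ∧ ∀ c' < c, (toZ a - toZ b) c' = 0 := by
  rw [MonomialOrder.lex_lt_iff, Finsupp.Lex.lt_iff]
  simp only [toZ, Pi.sub_apply]
  constructor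
  · rintro ⟨c, h1, h2⟩
    refine ⟨c, ?_, ?_⟩
    · have : b c < a c := h2
      omega
    · intro c' hc'
      have : b c' = a c' := h1 c' hc'
      omega
  · rintro ⟨c, h1, h2⟩
    refine ⟨c, ?_, ?_⟩
    · intro d hd
      have := h2 d hd
      show b d = a d
      omega
    · show b c < a c
      omega

/-- `u` is lexicographically positive -/
def lpos (u : Fin n → ℤ) : Prop := ∃ c, 0 < u c ∧ ∀ c' < c, u c' = 0

lemma lpos_ne_zero {u : Fin n → ℤ} (h : lpos u) : u ≠ 0 := by
  rintro rfl; obtain ⟨c, h1, _⟩ := h; simp at h1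

lemma lpos_not_neg {u : Fin n → ℤ} (h : lpos u) : ¬ lpos (-u) := by
  rintro ⟨c, h1, h2⟩
  obtain ⟨d, h3, h4⟩ := h
  rcases lt_trichotomy c d with h | h | h
  · have := h4 c h; simp [this] at h1
  · subst h; simp at h1; omega
  · have := h2 d h; simp at this; omega

lemma lpos_add {u v : Fin n → ℤ} (h : lpos u) (h' : lpos v) : lpos (u + v) := by
  obtain ⟨c, h1, h2⟩ := h
  obtain ⟨d, h3, h4⟩ := h'
  rcases lt_trichotomy c d with h | h | h
  · exact ⟨c, by simp [h4 c h, h1], fun c' hc' => by simp [h2 c' hc', h4 c' (hc'.trans h)]⟩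
  · subst h
    exact ⟨c, by simp; omega, fun c' hc' => by simp [h2 c' hc', h4 c' hc']⟩
  · exact ⟨d, by simp [h2 d h, h3], fun c' hc' => by simp [h4 c' hc', h2 c' (hc'.trans h)]⟩

lemma pp_ne_np {u : Fin n → ℤ} (h : u ≠ 0) : pp u ≠ np u := by
  intro he
  apply h
  funext i
  have := DFunLike.congr_fun he i
  simp only [pp_apply, np_apply] at this
  simp only [Pi.zero_apply]
  omega

lemma support_bin {u : Fin n → ℤ} (h : u ≠ 0) : (bin u).support = {pp u, np u} := by
  classical
  have hne := pp_ne_np h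
  ext m
  simp only [mem_support_iff, bin, coeff_sub, coeff_monomial, Finset.mem_insert,
    Finset.mem_singleton]
  by_cases h1 : pp u = m
  · subst h1
    simp [hne.symm]
  · by_cases h2 : np u = m
    · subst h2; simp [hne]
    · simp [h1, h2]
      exact ⟨fun h => h1 h.symm, fun h => h2 h.symm⟩

lemma coeff_pp_bin {u : Fin n → ℤ} (h : u ≠ 0) : coeff (pp u) (bin u) = 1 := by
  classical
  have hne := pp_ne_np h
  simp [bin, coeff_sub, coeff_monomial, hne.symm]

lemma coeff_np_bin {u : Fin n → ℤ} (h : u ≠ 0) : coeff (np u) (bin u) = -1 := by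
  classical
  have hne := pp_ne_np h
  simp [bin, coeff_sub, coeff_monomial, hne]

lemma bin_ne_zero {u : Fin n → ℤ} (h : u ≠ 0) : bin u ≠ 0 := by
  intro h0
  have := coeff_pp_bin h
  rw [h0] at this
  simp at this

lemma degree_bin {u : Fin n → ℤ} (h : lpos u) : MonomialOrder.lex.degree (bin u) = pp u := by
  have hne := lpos_ne_zero h
  have h1 := MonomialOrder.lex.degree_mem_support (bin_ne_zero hne)
  rw [support_bin hne] at h1
  simp only [Finset.mem_insert, Finset.mem_singleton] at h1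
  rcases h1 with h1 | h1
  · exact h1
  · exfalso
    have h2 : pp u ∈ (bin u).support := by rw [support_bin hne]; simp
    have h3 := MonomialOrder.lex.le_degree h2
    rw [h1] at h3
    have h4 : MonomialOrder.lex.toSyn (np u) < MonomialOrder.lex.toSyn (pp u) := by
      rw [lex_lt_iff_pos, toZ_pp_sub_np]; exact h
    exact absurd h3 (not_le.mpr h4)

/-- the initial ideal for the lexicographic order -/
noncomputable def inLex (I : Ideal (MvPolynomial (Fin n) ℚ)) : Ideal (MvPolynomial (Fin n) ℚ) :=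
  Ideal.span {g | ∃ f ∈ I, f ≠ 0 ∧ g = MvPolynomial.monomial (MonomialOrder.lex.degree f) (1 : ℚ)}

lemma monomial_mem_inLex (L : Submodule ℤ (Fin n → ℤ)) {u : Fin n → ℤ} (hu : u ∈ L) (hp : lpos u)
    {m : Fin n →₀ ℕ} (hm : pp u ≤ m) (a : ℚ) : monomial m a ∈ inLex (latI L) := by
  have h1 : monomial (pp u) (1 : ℚ) ∈ inLex (latI L) :=
    Ideal.subset_span ⟨bin u, bin_mem L hu, bin_ne_zero (lpos_ne_zero hp), by rw [degree_bin hp]⟩
  have h2 : monomial m a = monomial (m - pp u) a * monomial (pp u) (1 : ℚ) := by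
    rw [monomial_mul, mul_one, tsub_add_cancel_of_le hm]
  rw [h2]
  exact Ideal.mul_mem_left _ _ h1

lemma inLex_eq (I : Ideal (MvPolynomial (Fin n) ℚ)) :
    inLex I = Ideal.span ((fun s => monomial s (1 : ℚ)) ''
      {s | ∃ f ∈ I, f ≠ 0 ∧ s = MonomialOrder.lex.degree f}) := by
  unfold inLex
  congr 1
  ext g
  constructor
  · rintro ⟨f, hf, h0, rfl⟩
    exact ⟨_, ⟨f, hf, h0, rfl⟩, rfl⟩
  · rintro ⟨s, ⟨f, hf, h0, rfl⟩, rfl⟩
    exact ⟨f, hf, h0, rfl⟩

/-- A monomial in the initial ideal dominates `pp u` for a lexicographically positive lattice vector -/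
lemma exists_of_monomial_mem (L : Submodule ℤ (Fin n → ℤ)) {m : Fin n →₀ ℕ}
    (hm : monomial m (1 : ℚ) ∈ inLex (latI L)) :
    ∃ u ∈ L, lpos u ∧ pp u ≤ m := by
  rw [inLex_eq, mem_ideal_span_monomial_image] at hm
  have hmm : m ∈ (monomial m (1 : ℚ) : MvPolynomial (Fin n) ℚ).support := by
    classical
    simp [mem_support_iff]
  obtain ⟨s, ⟨f, hf, h0, rfl⟩, hs⟩ := hm m hmm
  obtain ⟨b, hb, hne, hL⟩ := fibre_lemma L f hf _ (MonomialOrder.lex.degree_mem_support h0)
  refine ⟨_, hL, ?_, ?_⟩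
  · have h1 := MonomialOrder.lex.le_degree hb
    have h2 : MonomialOrder.lex.toSyn b < MonomialOrder.lex.toSyn (MonomialOrder.lex.degree f) := by
      refine lt_of_le_of_ne h1 ?_
      intro h
      exact hne (MonomialOrder.lex.toSyn.injective h)
    exact (lex_lt_iff_pos _ _).mp h2
  · refine le_trans ?_ hs
    intro i
    simp only [pp_apply, toZ, Pi.sub_apply]
    omega

end Pool.Agent.H714R3
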