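import Mathlib
import Pool.Agent.H714R3.GroebA

set_option autoImplicit false

namespace Pool.Agent.H714R3

open MvPolynomial

variable {n : ℕ}

/-- weight pairing -/
noncomputable def pr (w : Fin n → ℝ) (u : Fin n → ℤ) : ℝ := ∑ i, w i * (u i : ℝ)

lemma pr_add (w : Fin n → ℝ) (u v : Fin n → ℤ) : pr w (u + v) = pr w u + pr w v := by
  simp [pr, mul_add, Finset.sum_add_distrib]

lemma pr_neg (w : Fin n → ℝ) (u : Fin n → ℤ) : pr w (-u) = - pr w u := by
  simp [pr]

lemma pr_zero (w : Fin n → ℝ) : pr w 0 = 0 := by simp [pr]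

lemma pr_toZ_sub (w : Fin n → ℝ) (a b : Fin n →₀ ℕ) :
    pr w (toZ a - toZ b) = (∑ i, w i * ((a i : ℕ) : ℝ)) - ∑ i, w i * ((b i : ℕ) : ℝ) := by
  simp [pr, toZ, mul_sub, Finset.sum_sub_distrib]

/-- w-initial form -/
noncomputable def inW (w : Fin n → ℝ) (f : MvPolynomial (Fin n) ℚ) : MvPolynomial (Fin n) ℚ :=
  ∑ m ∈ (MvPolynomial.support f).filter
              (fun m => ∀ m' ∈ MvPolynomial.support f,
                ∑ i, w i * ((m' i : ℕ) : ℝ) ≤ ∑ i, w i * ((m i : ℕ) : ℝ)),
            MvPolynomial.monomial m (MvPolynomial.coeff m f)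

/-- the weight initial ideal -/
noncomputable def inWI (w : Fin n → ℝ) (I : Ideal (MvPolynomial (Fin n) ℚ)) :
    Ideal (MvPolynomial (Fin n) ℚ) :=
  Ideal.span {g | ∃ f ∈ I, g = inW w f}

/-- conformality with respect to the coordinates of `G` -/
def cf (G : (Fin 3 → ℤ) →ₗ[ℤ] (Fin n → ℤ)) (y x : Fin 3 → ℤ) : Prop :=
  ∀ c, (0 ≤ G y c ∧ G y c ≤ G x c) ∨ (G x c ≤ G y c ∧ G y c ≤ 0)

lemma cf_trans {G : (Fin 3 → ℤ) →ₗ[ℤ] (Fin n → ℤ)} {x y z : Fin 3 → ℤ}
    (h : cf G x y) (h' : cf G y z) : cf G x z := by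
  intro c
  have h1 := h c
  have h2 := h' c
  omega

lemma cf_sub {G : (Fin 3 → ℤ) →ₗ[ℤ] (Fin n → ℤ)} {x y : Fin 3 → ℤ}
    (h : cf G y x) : cf G (x - y) x := by
  intro c
  have h1 := h c
  simp only [map_sub, Pi.sub_apply]
  omega

lemma cf_pp {G : (Fin 3 → ℤ) →ₗ[ℤ] (Fin n → ℤ)} {x y : Fin 3 → ℤ}
    (h : cf G y x) : pp (G y) ≤ pp (G x) := by
  intro c
  have h1 := h c
  simp only [pp_apply]
  omega

lemma decomp (G : (Fin 3 → ℤ) →ₗ[ℤ] (Fin n → ℤ)) (hinj : Function.Injective G)
    (K : Set (Fin 3 → ℤ))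
    (hP : ∀ x, x ≠ 0 → ∃ y, y ≠ 0 ∧ cf G y x ∧ (y ∈ K ∨ -y ∈ K))
    (hK : ∀ y ∈ K, lpos (G y)) (w : Fin n → ℝ) (hw : ∀ y ∈ K, 0 < pr w (G y)) :
    ∀ N : ℕ, ∀ x, x ≠ 0 → (∑ c, (G x c).natAbs) ≤ N →
      (∃ y ∈ K, cf G y x) ∨ (lpos (G (-x)) ∧ 0 < pr w (G (-x))) := by
  intro N
  induction N with
  | zero =>
    intro x hx hN
    exfalso
    apply hx
    apply hinj
    rw [map_zero]
    funext c
    have := Finset.single_le_sum (f := fun c => (G x c).natAbs) (fun i _ => Nat.zero_le _)
      (Finset.mem_univ c)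
    simp only [Pi.zero_apply]
    omega
  | succ N ih =>
    intro x hx hN
    obtain ⟨y, hy0, hyx, hy | hy⟩ := hP x hx
    · exact Or.inl ⟨y, hy, hyx⟩
    · by_cases hxy : x - y = 0
      · have : x = y := sub_eq_zero.mp hxy
        subst this
        exact Or.inr ⟨hK _ hy, hw _ hy⟩
      · have hlt : (∑ c, (G (x - y) c).natAbs) ≤ N := by
          have hne : ∃ c, G y c ≠ 0 := by
            by_contra hc
            push Not at hc
            apply hy0
            apply hinj
            rw [map_zero]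
            funext c
            exact hc c
          obtain ⟨c0, hc0⟩ := hne
          have : (∑ c, (G (x - y) c).natAbs) < ∑ c, (G x c).natAbs := by
            apply Finset.sum_lt_sum
            · intro c _
              have := hyx c
              simp only [map_sub, Pi.sub_apply]
              omega
            · refine ⟨c0, Finset.mem_univ _, ?_⟩
              have := hyx c0
              simp only [map_sub, Pi.sub_apply]
              omega
          omega
        rcases ih (x - y) hxy hlt with ⟨y', hy', h⟩ | ⟨h1, h2⟩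
        · exact Or.inl ⟨y', hy', cf_trans h (cf_sub hyx)⟩
        · right
          have hyl := hK _ hy
          have hyw := hw _ hy
          have e : G (-x) = G (-(x - y)) + G (-y) := by
            rw [← map_add]; congr 1; abel
          rw [e]
          refine ⟨lpos_add h1 hyl, ?_⟩
          rw [pr_add]; linarith

/-- For good weights the weight initial ideal is the lexicographic initial ideal. -/
theorem inWI_eq_of_good (G : (Fin 3 → ℤ) →ₗ[ℤ] (Fin n → ℤ)) (hinj : Function.Injective G)
    (K : Set (Fin 3 → ℤ))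
    (hP : ∀ x, x ≠ 0 → ∃ y, y ≠ 0 ∧ cf G y x ∧ (y ∈ K ∨ -y ∈ K))
    (hK : ∀ y ∈ K, lpos (G y)) (w : Fin n → ℝ) (hw : ∀ y ∈ K, 0 < pr w (G y)) :
    inWI w (latI (LinearMap.range G)) = inLex (latI (LinearMap.range G)) := by
  apply le_antisymm
  · unfold inWI
    rw [Ideal.span_le]
    rintro g ⟨f, hf, rfl⟩
    unfold inW
    apply Ideal.sum_mem
    intro m hm
    rw [Finset.mem_filter] at hm
    obtain ⟨hm1, hm2⟩ := hm
    obtain ⟨m', hm', hne, hL⟩ := fibre_lemma _ f hf m hm1
    obtain ⟨x, hx⟩ := hL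
    have hx0 : x ≠ 0 := by
      rintro rfl
      rw [map_zero] at hx
      apply hne
      ext i
      have := congrFun hx i
      simp only [toZ, Pi.sub_apply, Pi.zero_apply] at this
      omega
    have hprx : 0 ≤ pr w (G x) := by
      rw [hx, pr_toZ_sub]
      have := hm2 m' hm'
      linarith
    rcases decomp G hinj K hP hK w hw _ x hx0 le_rfl with ⟨y, hy, hyx⟩ | ⟨h1, h2⟩
    · refine monomial_mem_inLex _ (LinearMap.mem_range_self G y) (hK y hy) ?_ _
      refine le_trans (cf_pp hyx) ?_
      rw [hx]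
      intro i
      simp only [pp_apply, toZ, Pi.sub_apply]
      omega
    · rw [map_neg, pr_neg] at h2
      linarith
  · unfold inLex
    rw [Ideal.span_le]
    rintro g ⟨f, hf, hf0, rfl⟩
    have hmem : monomial (MonomialOrder.lex.degree f) (1 : ℚ) ∈ inLex (latI (LinearMap.range G)) :=
      Ideal.subset_span ⟨f, hf, hf0, rfl⟩
    obtain ⟨u, ⟨x, rfl⟩, hpos, hle⟩ := exists_of_monomial_mem _ hmem
    have hx0 : x ≠ 0 := by
      rintro rfl
      rw [map_zero] at hpos
      exact lpos_ne_zero hpos rfl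
    rcases decomp G hinj K hP hK w hw _ x hx0 le_rfl with ⟨y, hy, hyx⟩ | ⟨h1, h2⟩
    · have hyp := hK y hy
      have hy0 := lpos_ne_zero hyp
      have hin : inW w (bin (G y)) = monomial (pp (G y)) (1 : ℚ) := by
        unfold inW
        have hfil : (MvPolynomial.support (bin (G y))).filter
              (fun m => ∀ m' ∈ MvPolynomial.support (bin (G y)),
                ∑ i, w i * ((m' i : ℕ) : ℝ) ≤ ∑ i, w i * ((m i : ℕ) : ℝ)) = {pp (G y)} := by
          have hlt : (∑ i, w i * ((np (G y) i : ℕ) : ℝ)) < ∑ i, w i * ((pp (G y) i : ℕ) : ℝ) := by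
            have := hw y hy
            rw [← toZ_pp_sub_np (G y), pr_toZ_sub] at this
            linarith
          ext m
          rw [Finset.mem_filter, support_bin hy0]
          simp only [Finset.mem_insert, Finset.mem_singleton, forall_eq_or_imp, forall_eq]
          constructor
          · rintro ⟨h1 | h1, h2, h3⟩
            · exact h1
            · subst h1; linarith
          · rintro rfl
            exact ⟨Or.inl rfl, le_rfl, hlt.le⟩
        rw [hfil, Finset.sum_singleton, coeff_pp_bin hy0]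
      have h1 : monomial (pp (G y)) (1 : ℚ) ∈ inWI w (latI (LinearMap.range G)) :=
        Ideal.subset_span ⟨bin (G y), bin_mem _ (LinearMap.mem_range_self G y), hin.symm⟩
      have hle2 : pp (G y) ≤ MonomialOrder.lex.degree f := le_trans (cf_pp hyx) hle
      have h2 : monomial (MonomialOrder.lex.degree f) (1 : ℚ) =
          monomial (MonomialOrder.lex.degree f - pp (G y)) (1 : ℚ) * monomial (pp (G y)) (1 : ℚ) := by
        rw [monomial_mul, mul_one, tsub_add_cancel_of_le hle2]
      show monomial (MonomialOrder.lex.degree f) (1 : ℚ) ∈ inWI w (latI (LinearMap.range G))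
      rw [h2]
      exact Ideal.mul_mem_left _ _ h1
    · exfalso
      rw [map_neg] at h1
      exact lpos_not_neg hpos h1

/-- Conversely the chamber lies in the half space of each primitive vector. -/
theorem pr_nonneg_of_eq (G : (Fin 3 → ℤ) →ₗ[ℤ] (Fin n → ℤ))
    (hneg : ∀ c, ∃ c', ∀ x, G x c' = - G x c) (w : Fin n → ℝ)
    (hw : inWI w (latI (LinearMap.range G)) = inLex (latI (LinearMap.range G)))
    (z : Fin 3 → ℤ) (hz : lpos (G z)) (hprim : ∀ y, cf G y z → y = 0 ∨ y = z) :
    0 ≤ pr w (G z) := by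
  by_contra hlt0
  push Not at hlt0
  have hz0 := lpos_ne_zero hz
  have hin : inW w (bin (G z)) = monomial (np (G z)) (-1 : ℚ) := by
    unfold inW
    have hfil : (MvPolynomial.support (bin (G z))).filter
          (fun m => ∀ m' ∈ MvPolynomial.support (bin (G z)),
            ∑ i, w i * ((m' i : ℕ) : ℝ) ≤ ∑ i, w i * ((m i : ℕ) : ℝ)) = {np (G z)} := by
      have hlt : (∑ i, w i * ((pp (G z) i : ℕ) : ℝ)) < ∑ i, w i * ((np (G z) i : ℕ) : ℝ) := by
        have := hlt0
        rw [← toZ_pp_sub_np (G z), pr_toZ_sub] at this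
        linarith
      ext m
      rw [Finset.mem_filter, support_bin hz0]
      simp only [Finset.mem_insert, Finset.mem_singleton, forall_eq_or_imp, forall_eq]
      constructor
      · rintro ⟨h1 | h1, h2, h3⟩
        · subst h1; linarith
        · exact h1
      · rintro rfl
        exact ⟨Or.inr rfl, hlt.le, le_rfl⟩
    rw [hfil, Finset.sum_singleton, coeff_np_bin hz0]
  have h1 : monomial (np (G z)) (-1 : ℚ) ∈ inWI w (latI (LinearMap.range G)) :=
    Ideal.subset_span ⟨bin (G z), bin_mem _ (LinearMap.mem_range_self G z), hin.symm⟩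
  rw [hw] at h1
  have h2 : monomial (np (G z)) (1 : ℚ) ∈ inLex (latI (LinearMap.range G)) := by
    have : monomial (np (G z)) (1 : ℚ) = C (-1 : ℚ) * monomial (np (G z)) (-1 : ℚ) := by
      rw [C_mul_monomial]; norm_num
    rw [this]
    exact Ideal.mul_mem_left _ _ h1
  obtain ⟨u, ⟨x, rfl⟩, hpos, hle⟩ := exists_of_monomial_mem _ h2
  have hle' : ∀ c, (G x c).toNat ≤ (-(G z c)).toNat := by
    intro c
    have := hle c
    simpa using this
  have hcf : cf G (-x) z := by
    intro c
    obtain ⟨c', hc'⟩ := hneg c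
    have h3 := hle' c
    have h4 := hle' c'
    rw [hc', hc'] at h4
    simp only [map_neg, Pi.neg_apply]
    omega
  rcases hprim _ hcf with h | h
  · have : x = 0 := by simpa using h
    subst this
    rw [map_zero] at hpos
    exact lpos_ne_zero hpos rfl
  · have hx : x = -z := by rw [← h]; simp
    subst hx
    rw [map_neg] at hpos
    exact lpos_not_neg hz hpos

end Pool.Agent.H714R3
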