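import Mathlib
import Pool.Agent.H714R3.GroebB

set_option autoImplicit false

namespace Pool.Agent.H714R3

open MvPolynomial

variable {n : ℕ}

lemma pr_add_smul (w v : Fin n → ℝ) (t : ℝ) (u : Fin n → ℤ) :
    pr (w + t • v) u = pr w u + t * pr v u := by
  simp only [pr, Pi.add_apply, Pi.smul_apply, smul_eq_mul, add_mul, Finset.sum_add_distrib,
    Finset.mul_sum]
  congr 1
  apply Finset.sum_congr rfl
  intro i _
  ring

/-- the linear functional of an integer vector -/
noncomputable def psi (u : Fin n → ℤ) : (Fin n → ℝ) →ₗ[ℝ] ℝ where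
  toFun w := ∑ i, (u i : ℝ) * w i
  map_add' := by intro a b; simp [mul_add, Finset.sum_add_distrib]
  map_smul' := by
    intro c a
    simp only [Pi.smul_apply, smul_eq_mul, RingHom.id_apply, Finset.mul_sum]
    apply Finset.sum_congr rfl
    intro i _; ring

lemma psi_eq_pr (u : Fin n → ℤ) (w : Fin n → ℝ) : psi u w = pr w u := by
  simp only [psi, pr, LinearMap.coe_mk, AddHom.coe_mk]
  apply Finset.sum_congr rfl
  intro i _; ring

lemma psi_ne_zero {u : Fin n → ℤ} (h : u ≠ 0) : psi u ≠ 0 := by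
  intro h0
  apply h
  funext i
  have := LinearMap.congr_fun h0 (Pi.single i 1)
  simp [psi, Pi.single_apply] at this
  simpa using this

lemma psi_continuous (u : Fin n → ℤ) : Continuous (psi u) := by
  unfold psi
  simp only [LinearMap.coe_mk, AddHom.coe_mk]
  fun_prop

/-- chamber interior -/
def C0 (I : Ideal (MvPolynomial (Fin n) ℚ)) : Set (Fin n → ℝ) :=
  {w | inWI w I = inLex I}

lemma mem_closure_of_pert {S : Set (Fin n → ℝ)} {w w1 : Fin n → ℝ}
    (h : ∀ t : ℝ, 0 < t → w + t • w1 ∈ S) : w ∈ closure S := by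
  have h0 : (0 : ℝ) ∈ closure (Set.Ioi (0 : ℝ)) := by
    rw [closure_Ioi]; exact Set.mem_Ici.mpr le_rfl
  have hc : Continuous (fun t : ℝ => w + t • w1) := by fun_prop
  have := map_mem_closure hc h0 (t := S) (fun t ht => h t ht)
  simpa using this

theorem facets (G : (Fin 3 → ℤ) →ₗ[ℤ] (Fin n → ℤ)) (hinj : Function.Injective G)
    (hneg : ∀ c, ∃ c', ∀ x, G x c' = - G x c)
    {ι : Type} [Finite ι] (Gen : ι → (Fin 3 → ℤ))
    (hP : ∀ x, x ≠ 0 → ∃ y, y ≠ 0 ∧ cf G y x ∧
      ((lpos (G y) ∧ ∀ w, (∀ g, 0 < pr w (G (Gen g))) → 0 < pr w (G y)) ∨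
       (lpos (G (-y)) ∧ ∀ w, (∀ g, 0 < pr w (G (Gen g))) → 0 < pr w (G (-y)))))
    (w1 : Fin n → ℝ) (hw1 : ∀ g, 0 < pr w1 (G (Gen g)))
    {k : ℕ} (z : Fin k → ι) (hzinj : ∀ i j, Gen (z i) = Gen (z j) → i = j)
    (hzpos : ∀ i, lpos (G (Gen (z i))))
    (hprim : ∀ i, ∀ y, cf G y (Gen (z i)) → y = 0 ∨ y = Gen (z i))
    (wt : Fin k → (Fin n → ℝ)) (hwt0 : ∀ i, pr (wt i) (G (Gen (z i))) = 0)
    (hwt : ∀ i g, Gen g ≠ Gen (z i) → 0 < pr (wt i) (G (Gen g))) :
    (k : ℕ∞) ≤ Set.encard {F : Set (Fin n → ℝ) | ∃ c : Fin n → ℝ,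
        (∀ w ∈ closure (C0 (latI (LinearMap.range G))), 0 ≤ ∑ i, c i * w i) ∧
        F = {w | w ∈ closure (C0 (latI (LinearMap.range G))) ∧ ∑ i, c i * w i = 0} ∧
        Module.finrank ℝ (Submodule.span ℝ F) + 1 =
          Module.finrank ℝ (Submodule.span ℝ (closure (C0 (latI (LinearMap.range G)))))} := by
  set C := closure (C0 (latI (LinearMap.range G))) with hC
  -- good weights are in C0
  have good : ∀ w, (∀ g, 0 < pr w (G (Gen g))) → w ∈ C0 (latI (LinearMap.range G)) := by
    intro w hw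
    refine inWI_eq_of_good G hinj
      {y | lpos (G y) ∧ ∀ w, (∀ g, 0 < pr w (G (Gen g))) → 0 < pr w (G y)} ?_ ?_ w ?_
    · exact hP
    · intro y hy; exact hy.1
    · intro y hy; exact hy.2 w hw
  -- half spaces
  have half : ∀ i, ∀ w ∈ C, 0 ≤ psi (G (Gen (z i))) w := by
    intro i w hw
    have hcl : IsClosed {w | 0 ≤ psi (G (Gen (z i))) w} :=
      isClosed_le continuous_const (psi_continuous _)
    have hsub : C0 (latI (LinearMap.range G)) ⊆ {w | 0 ≤ psi (G (Gen (z i))) w} := by
      intro w hw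
      show 0 ≤ psi (G (Gen (z i))) w
      rw [psi_eq_pr]
      exact pr_nonneg_of_eq G hneg w hw _ (hzpos i) (hprim i)
    exact closure_minimal hsub hcl hw
  -- weakly good weights are in C
  have weak : ∀ w, (∀ g, 0 ≤ pr w (G (Gen g))) → w ∈ C := by
    intro w hw
    apply mem_closure_of_pert (w1 := w1)
    intro t ht
    apply good
    intro g
    rw [pr_add_smul]
    have := mul_pos ht (hw1 g)
    have := hw g
    linarith
  have spanC : Submodule.span ℝ C = ⊤ := by
    rw [eq_top_iff]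
    intro v _
    have hev : ∀ᶠ t in nhdsWithin (0 : ℝ) (Set.Ioi 0), ∀ g, 0 < pr w1 (G (Gen g)) + t * pr v (G (Gen g)) := by
      rw [Filter.eventually_all]
      intro g
      have ht : Filter.Tendsto (fun t : ℝ => pr w1 (G (Gen g)) + t * pr v (G (Gen g)))
          (nhdsWithin (0 : ℝ) (Set.Ioi 0)) (nhds (pr w1 (G (Gen g)) + 0 * pr v (G (Gen g)))) := by
        apply Filter.Tendsto.mono_left _ nhdsWithin_le_nhds
        apply Continuous.tendsto
        fun_prop
      rw [zero_mul, add_zero] at ht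
      exact ht.eventually (lt_mem_nhds (hw1 g))
    obtain ⟨t, ht1, ht2⟩ := (hev.and self_mem_nhdsWithin).exists
    have ht2' : (0 : ℝ) < t := ht2
    have h1 : w1 + t • v ∈ C := by
      apply weak; intro g; rw [pr_add_smul]; exact (ht1 g).le
    have h2 : w1 ∈ C := weak _ (fun g => (hw1 g).le)
    have h3 : v = t⁻¹ • ((w1 + t • v) - w1) := by
      rw [add_sub_cancel_left, smul_smul, inv_mul_cancel₀ ht2'.ne', one_smul]
    rw [h3]
    exact Submodule.smul_mem _ _ (Submodule.sub_mem _ (Submodule.subset_span h1)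
      (Submodule.subset_span h2))
  have wtC : ∀ i, wt i ∈ C := by
    intro i
    apply weak
    intro g
    by_cases h : Gen g = Gen (z i)
    · rw [h, hwt0]
    · exact (hwt i g h).le
  -- the facets
  let F : Fin k → Set (Fin n → ℝ) := fun i => {w | w ∈ C ∧ ∑ c, ((G (Gen (z i)) c : ℤ) : ℝ) * w c = 0}
  have hFmem : ∀ i w, w ∈ F i ↔ w ∈ C ∧ psi (G (Gen (z i))) w = 0 := by
    intro i w; rfl
  have spanF : ∀ i, Submodule.span ℝ (F i) = LinearMap.ker (psi (G (Gen (z i)))) := by
    intro i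
    apply le_antisymm
    · rw [Submodule.span_le]
      intro w hw
      exact ((hFmem i w).mp hw).2
    · intro v hv
      have hv' : pr v (G (Gen (z i))) = 0 := by rw [← psi_eq_pr]; exact hv
      have hev : ∀ᶠ t in nhdsWithin (0 : ℝ) (Set.Ioi 0), ∀ g, Gen g ≠ Gen (z i) →
          0 < pr (wt i) (G (Gen g)) + t * pr v (G (Gen g)) := by
        rw [Filter.eventually_all]
        intro g
        by_cases hg : Gen g = Gen (z i)
        · exact Filter.Eventually.of_forall (fun t h => absurd hg h)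
        · have ht : Filter.Tendsto (fun t : ℝ => pr (wt i) (G (Gen g)) + t * pr v (G (Gen g)))
              (nhdsWithin (0 : ℝ) (Set.Ioi 0))
              (nhds (pr (wt i) (G (Gen g)) + 0 * pr v (G (Gen g)))) := by
            apply Filter.Tendsto.mono_left _ nhdsWithin_le_nhds
            apply Continuous.tendsto
            fun_prop
          rw [zero_mul, add_zero] at ht
          exact (ht.eventually (lt_mem_nhds (hwt i g hg))).mono (fun t h _ => h)
      obtain ⟨t, ht1, ht2⟩ := (hev.and self_mem_nhdsWithin).exists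
      have ht2' : (0 : ℝ) < t := ht2
      have h1 : wt i + t • v ∈ F i := by
        rw [hFmem]
        refine ⟨?_, ?_⟩
        · apply weak; intro g; rw [pr_add_smul]
          by_cases hg : Gen g = Gen (z i)
          · rw [hg, hwt0, hv']; simp
          · exact (ht1 g hg).le
        · rw [psi_eq_pr, pr_add_smul, hwt0, hv']; simp
      have h2 : wt i ∈ F i := by
        rw [hFmem, psi_eq_pr]
        exact ⟨wtC i, hwt0 i⟩
      have h3 : v = t⁻¹ • ((wt i + t • v) - wt i) := by
        rw [add_sub_cancel_left, smul_smul, inv_mul_cancel₀ ht2'.ne', one_smul]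
      rw [h3]
      exact Submodule.smul_mem _ _ (Submodule.sub_mem _ (Submodule.subset_span h1)
        (Submodule.subset_span h2))
  have hFinj : Function.Injective F := by
    intro i j hij
    by_contra hne
    have h2 : wt i ∈ F i := by
      rw [hFmem, psi_eq_pr]
      exact ⟨wtC i, hwt0 i⟩
    rw [hij, hFmem, psi_eq_pr] at h2
    have h3 := hwt i (z j) (fun h => hne (hzinj j i h).symm)
    linarith [h2.2]
  have hsub : Set.range F ⊆ {F : Set (Fin n → ℝ) | ∃ c : Fin n → ℝ,
        (∀ w ∈ C, 0 ≤ ∑ i, c i * w i) ∧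
        F = {w | w ∈ C ∧ ∑ i, c i * w i = 0} ∧
        Module.finrank ℝ (Submodule.span ℝ F) + 1 =
          Module.finrank ℝ (Submodule.span ℝ C)} := by
    rintro _ ⟨i, rfl⟩
    refine ⟨fun c => ((G (Gen (z i)) c : ℤ) : ℝ), ?_, rfl, ?_⟩
    · intro w hw; exact half i w hw
    · rw [spanF, spanC, finrank_top]
      exact Module.Dual.finrank_ker_add_one_of_ne_zero (psi_ne_zero (lpos_ne_zero (hzpos i)))
  calc (k : ℕ∞) = Set.encard (Set.range F) := by
        rw [← Set.image_univ, hFinj.encard_image, Set.encard_univ]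
        simp
    _ ≤ _ := Set.encard_le_encard hsub

end Pool.Agent.H714R3
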