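import Mathlib

set_option autoImplicit false

namespace Pool.Agent.H714R3

/-- conformality of two integers -/
def cfv (a b : ℤ) : Prop := (0 ≤ a ∧ a ≤ b) ∨ (b ≤ a ∧ a ≤ 0)

lemma cfv_self (a : ℤ) : cfv a a := by unfold cfv; omega

lemma cfv_zero (b : ℤ) : cfv 0 b := by unfold cfv; omega

lemma cfv_neg {a b : ℤ} (h : cfv a b) : cfv (-a) (-b) := by unfold cfv at *; omega

lemma cfv_pos {a b : ℤ} (h : 0 ≤ a) (h' : a ≤ b) : cfv a b := Or.inl ⟨h, h'⟩

lemma cfv_nonpos {a b : ℤ} (h : a ≤ 0) (h' : b ≤ a) : cfv a b := Or.inr ⟨h', h⟩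

/-- the line functionals -/
def ff (h m s t r : ℤ) : ℤ := (t + 2 * m * r) - h * (s - m ^ 2 * r)

/-- the cone -/
def InK (k : ℕ) (s t r : ℤ) : Prop :=
  (0 < r ∨ (r = 0 ∧ 0 ≤ s ∧ 0 ≤ t ∧ (s ≠ 0 ∨ t ≠ 0))) ∧
  ∀ a b c : ℝ, 0 < a → 0 < b → (∀ m : ℤ, 1 ≤ m → m ≤ k → 0 < a * (m : ℝ) ^ 2 + b * (-2 * m) + c) →
    0 < a * s + b * t + c * r

/-- the conformality conditions -/
def CF (k : ℕ) (s' t' r' s t r : ℤ) : Prop :=
  cfv r' r ∧ cfv (s' - (k : ℤ) ^ 2 * r') (s - (k : ℤ) ^ 2 * r) ∧
  ∀ m : ℤ, 1 ≤ m → m ≤ k → ∀ h : ℤ, (h = m - 1 ∨ h = m) → cfv (ff h m s' t' r') (ff h m s t r)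

lemma CF_self (k : ℕ) (s t r : ℤ) : CF k s t r s t r :=
  ⟨cfv_self _, cfv_self _, fun _ _ _ _ _ => cfv_self _⟩

lemma InK_z (k : ℕ) (i : ℤ) (h1 : 1 ≤ i) (h2 : i ≤ k) : InK k (i ^ 2) (-2 * i) 1 := by
  refine ⟨Or.inl one_pos, ?_⟩
  intro a b c ha hb h
  have := h i h1 h2
  push_cast
  linarith

lemma InK_v (k : ℕ) (j : ℤ) (h1 : 0 ≤ j) : InK k 1 j 0 := by
  refine ⟨Or.inr ⟨rfl, by norm_num, h1, Or.inl one_ne_zero⟩, ?_⟩
  intro a b c ha hb h
  have : (0 : ℝ) ≤ j := by exact_mod_cast h1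
  push_cast
  nlinarith [mul_nonneg hb.le this]

lemma InK_level0 (k : ℕ) (s t : ℤ) (hs : 0 ≤ s) (ht : 0 ≤ t) (hne : s ≠ 0 ∨ t ≠ 0) :
    InK k s t 0 := by
  refine ⟨Or.inr ⟨rfl, hs, ht, hne⟩, ?_⟩
  intro a b c ha hb h
  have hs' : (0 : ℝ) ≤ s := by exact_mod_cast hs
  have ht' : (0 : ℝ) ≤ t := by exact_mod_cast ht
  rcases hne with h0 | h0
  · have : (0 : ℝ) < s := lt_of_le_of_ne hs' (by exact_mod_cast h0.symm)
    push_cast
    have h1 := mul_pos ha this
    have h2 := mul_nonneg hb.le ht'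
    linarith
  · have : (0 : ℝ) < t := lt_of_le_of_ne ht' (by exact_mod_cast h0.symm)
    push_cast
    have h1 := mul_pos hb this
    have h2 := mul_nonneg ha.le hs'
    linarith

lemma InK_corner (k : ℕ) (i s t r : ℤ) (h1 : 1 ≤ i) (h2 : i ≤ k) (hr : 0 < r)
    (hs : i ^ 2 * r ≤ s) (ht : -2 * i * r ≤ t) : InK k s t r := by
  refine ⟨Or.inl hr, ?_⟩
  intro a b c ha hb h
  have h3 := h i h1 h2
  have hr' : (0 : ℝ) < r := by exact_mod_cast hr
  have hs' : (0 : ℝ) ≤ s - (i : ℝ) ^ 2 * r := by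
    have : (i : ℝ) ^ 2 * r ≤ s := by exact_mod_cast hs
    linarith
  have ht' : (0 : ℝ) ≤ t + 2 * i * r := by
    have : -2 * (i : ℝ) * r ≤ t := by exact_mod_cast ht
    linarith
  have e1 := mul_nonneg ha.le hs'
  have e2 := mul_nonneg hb.le ht'
  have e3 := mul_pos h3 hr'
  nlinarith

lemma InK_strip (k : ℕ) (j s t r : ℤ) (h1 : 1 ≤ j) (h2 : j + 1 ≤ k) (hr : 0 < r)
    (hA : ff j j s t r < 0) (hB : 0 ≤ ff j (j + 1) s t r)
    (hX : 0 ≤ 2 * s + (2 * j + 1) * t + (2 * j ^ 2 + 2 * j) * r) : InK k s t r := by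
  refine ⟨Or.inl hr, ?_⟩
  intro a b c ha hb h
  have hz1 := h j h1 (by omega)
  have hz2 := h (j + 1) (by omega) h2
  push_cast at hz2
  have hD : (0 : ℝ) < 2 + j * (2 * j + 1) := by
    have : (1 : ℝ) ≤ j := by exact_mod_cast h1
    nlinarith
  have hA' : (0 : ℝ) < -((t + 2 * j * r) - j * (s - (j : ℝ) ^ 2 * r)) := by
    have : ((ff j j s t r : ℤ) : ℝ) < 0 := by exact_mod_cast hA
    unfold ff at this
    push_cast at this
    linarith
  have hB' : (0 : ℝ) ≤ ((t + 2 * (j + 1) * r) - j * (s - ((j : ℝ) + 1) ^ 2 * r)) := by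
    have : (0 : ℝ) ≤ ((ff j (j + 1) s t r : ℤ) : ℝ) := by exact_mod_cast hB
    unfold ff at this
    push_cast at this
    linarith
  have hX' : (0 : ℝ) ≤ 2 * s + (2 * j + 1) * t + (2 * (j : ℝ) ^ 2 + 2 * j) * r := by
    exact_mod_cast hX
  have hv : (0 : ℝ) < a + j * b := by
    have : (0 : ℝ) < j := by exact_mod_cast (by omega : 0 < j)
    positivity
  have e1 := mul_pos hA' hz2
  have e2 := mul_nonneg hB' hz1.le
  have e3 := mul_nonneg hX' hv.le
  have key : (2 + (j : ℝ) * (2 * j + 1)) * (a * s + b * t + c * r) =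
      -((t + 2 * j * r) - j * (s - (j : ℝ) ^ 2 * r)) * (a * ((j : ℝ) + 1) ^ 2 + b * (-2 * (j + 1)) + c)
      + ((t + 2 * (j + 1) * r) - j * (s - ((j : ℝ) + 1) ^ 2 * r)) * (a * (j : ℝ) ^ 2 + b * (-2 * j) + c)
      + (2 * s + (2 * j + 1) * t + (2 * (j : ℝ) ^ 2 + 2 * j) * r) * (a + j * b) := by
    ring
  by_contra hcon
  push Not at hcon
  have := mul_nonpos_of_nonneg_of_nonpos hD.le hcon
  linarith

/-- moving in the strip -/
lemma CF_strip (k : ℕ) (j s t r : ℤ) (h1 : 1 ≤ j) (h2 : j + 1 ≤ k) (hr : 0 < r)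
    (hs : s < (k : ℤ) ^ 2 * r)
    (hA : ff j j s t r < 0) (hB : 0 ≤ ff j (j + 1) s t r)
    (hX : 2 * s + (2 * j + 1) * t + (2 * j ^ 2 + 2 * j) * r < 0) : CF k (-1) (-j) 0 s t r := by
  refine ⟨cfv_zero _, cfv_nonpos (by omega) (by omega), ?_⟩
  intro m hm1 hm2 h hh
  have hD : 0 < 2 + j * (2 * j + 1) := by nlinarith
  have ey : ff h m (-1) (-j) 0 = h - j := by unfold ff; ring
  rw [ey]
  obtain ⟨A, hAe⟩ : ∃ A, A = -ff j j s t r := ⟨_, rfl⟩
  obtain ⟨B, hBe⟩ : ∃ B, B = ff j (j + 1) s t r := ⟨_, rfl⟩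
  obtain ⟨X, hXe⟩ : ∃ X, X = 2 * s + (2 * j + 1) * t + (2 * j ^ 2 + 2 * j) * r := ⟨_, rfl⟩
  have hA' : 0 < A := by omega
  have hB' : 0 ≤ B := by omega
  have hX' : X < 0 := by omega
  have hsum : A + B = (2 + j * (2 * j + 1)) * r := by
    rw [hAe, hBe]; unfold ff; ring
  have key : (2 + j * (2 * j + 1)) * ff h m s t r =
      A * ((m - (j + 1)) * (2 + h * (m + (j + 1)))) + B * ((m - j) * (2 + h * (m + j)))
      + X * (j - h) := by
    rw [hAe, hBe, hXe]; unfold ff; ring
  have hh0 : 0 ≤ h := by omega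
  rcases lt_trichotomy m j with hmj | hmj | hmj
  · -- m ≤ j - 1
    have hhj : h - j ≤ 0 := by omega
    apply cfv_nonpos hhj
    have hhm : m - 1 ≤ h := by omega
    have q1 : (m - (j + 1)) * (2 + h * (m + (j + 1))) ≤ h - j := by
      have p0 : 0 ≤ h * (m + (j + 1)) := by positivity
      have p1 := mul_nonpos_of_nonpos_of_nonneg (show m - (j + 1) ≤ 0 by omega) p0
      have p2 : (m - (j + 1)) * (2 + h * (m + (j + 1))) =
        2 * (m - (j + 1)) + (m - (j + 1)) * (h * (m + (j + 1))) := by ring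
      rw [p2]; linarith
    have q2 : (m - j) * (2 + h * (m + j)) ≤ h - j := by
      have p0 : 0 ≤ h * (m + j) := by positivity
      have p1 := mul_nonpos_of_nonpos_of_nonneg (show m - j ≤ 0 by omega) p0
      have p2 : (m - j) * (2 + h * (m + j)) =
        2 * (m - j) + (m - j) * (h * (m + j)) := by ring
      rw [p2]; linarith
    have q3 : X * (j - h) ≤ 0 := mul_nonpos_of_nonpos_of_nonneg hX'.le (by omega)
    have e1 := mul_le_mul_of_nonneg_left q1 hA'.le
    have e2 := mul_le_mul_of_nonneg_left q2 hB'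
    have e3 : (2 + j * (2 * j + 1)) * ff h m s t r ≤ (2 + j * (2 * j + 1)) * (r * (h - j)) := by
      rw [key]
      have : A * (h - j) + B * (h - j) = (2 + j * (2 * j + 1)) * (r * (h - j)) := by
        rw [← add_mul, hsum]; ring
      linarith
    have e4 : ff h m s t r ≤ r * (h - j) := le_of_mul_le_mul_left e3 hD
    nlinarith
  · subst hmj
    rcases hh with hh | hh
    · -- h = m - 1
      subst hh
      have e1 : (2 + m * (2 * m + 1)) * ff (m - 1) m s t r < 0 := by
        rw [key]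
        have q1 : (m - (m + 1)) * (2 + (m - 1) * (m + (m + 1))) ≤ 0 := by
          have : 0 ≤ (m - 1) * (m + (m + 1)) := mul_nonneg (by omega) (by omega)
          nlinarith
        have q2 := mul_nonpos_of_nonneg_of_nonpos hA'.le q1
        have q3 : B * ((m - m) * (2 + (m - 1) * (m + m))) = 0 := by ring
        have q4 : X * (m - (m - 1)) = X := by ring
        rw [q3, q4]
        linarith
      have e2 : ff (m - 1) m s t r < 0 := by
        by_contra hc
        push Not at hc
        have := mul_nonneg hD.le hc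
        linarith
      apply cfv_nonpos <;> omega
    · subst hh
      rw [sub_self]
      exact cfv_zero _
  · rcases eq_or_lt_of_le (show j + 1 ≤ m by omega) with hmj' | hmj'
    · subst hmj'
      rcases hh with hh | hh
      · have : h = j := by omega
        subst this
        rw [sub_self]
        exact cfv_zero _
      · subst hh
        have e1 : 0 < (2 + j * (2 * j + 1)) * ff (j + 1) (j + 1) s t r := by
          rw [key]
          have q2 : 0 ≤ B * (((j + 1) - j) * (2 + (j + 1) * ((j + 1) + j))) := by positivity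
          have q3 : A * (((j + 1) - (j + 1)) * (2 + (j + 1) * ((j + 1) + (j + 1)))) = 0 := by ring
          have q4 : X * (j - (j + 1)) = -X := by ring
          rw [q3, q4]
          linarith
        have e2 : 0 < ff (j + 1) (j + 1) s t r := by
          by_contra hc
          push Not at hc
          have := mul_nonpos_of_nonneg_of_nonpos hD.le hc
          linarith
        apply cfv_pos <;> omega
    · have hhj : 0 ≤ h - j := by omega
      apply cfv_pos hhj
      have q1 : h - j ≤ (m - (j + 1)) * (2 + h * (m + (j + 1))) := by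
        have : 0 ≤ h * (m + (j + 1)) := by positivity
        nlinarith
      have q2 : h - j ≤ (m - j) * (2 + h * (m + j)) := by
        have : 0 ≤ h * (m + j) := by positivity
        nlinarith
      have q3 : 0 ≤ X * (j - h) := mul_nonneg_of_nonpos_of_nonpos hX'.le (by omega)
      have e1 := mul_le_mul_of_nonneg_left q1 hA'.le
      have e2 := mul_le_mul_of_nonneg_left q2 hB'
      have e3 : (2 + j * (2 * j + 1)) * (r * (h - j)) ≤ (2 + j * (2 * j + 1)) * ff h m s t r := by
        rw [key]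
        have : A * (h - j) + B * (h - j) = (2 + j * (2 * j + 1)) * (r * (h - j)) := by
          rw [← add_mul, hsum]; ring
        linarith
      have e4 : r * (h - j) ≤ ff h m s t r := le_of_mul_le_mul_left e3 hD
      nlinarith

/-- the wedge -/
lemma CF_wedge (k : ℕ) (i s t r : ℤ) (h1 : 1 ≤ i) (h2 : i ≤ k) (hr : 0 < r)
    (hA : 0 ≤ ff i i s t r) (hB : ff (i - 1) i s t r < 0) : CF k (i ^ 2) (-2 * i) 1 s t r := by
  obtain ⟨A, hAe⟩ : ∃ A, A = ff i i s t r := ⟨_, rfl⟩
  obtain ⟨B, hBe⟩ : ∃ B, B = -ff (i - 1) i s t r := ⟨_, rfl⟩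
  have hA' : 0 ≤ A := by omega
  have hB' : 0 < B := by omega
  have hs : s = i ^ 2 * r - A - B := by rw [hAe, hBe]; unfold ff; ring
  have ht : t = -2 * i * r - (i - 1) * A - i * B := by rw [hAe, hBe]; unfold ff; ring
  clear hAe hBe hA hB
  subst hs ht
  have hik : i ^ 2 ≤ (k : ℤ) ^ 2 := by nlinarith
  refine ⟨cfv_pos (by omega) (by omega), cfv_nonpos ?_ ?_, ?_⟩
  · linarith
  · have := mul_nonneg (sub_nonneg.mpr hik) (show 0 ≤ r - 1 by omega)
    nlinarith
  · intro m hm1 hm2 h hh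
    have ey : ff h m (i ^ 2) (-2 * i) 1 = (m - i) * (2 + h * (m + i)) := by unfold ff; ring
    have ex : ff h m (i ^ 2 * r - A - B) (-2 * i * r - (i - 1) * A - i * B) r =
      r * ((m - i) * (2 + h * (m + i))) + A * (h - (i - 1)) + B * (h - i) := by
      unfold ff; ring
    rw [ey, ex]
    have hh0 : 0 ≤ h := by omega
    have hq : 0 < 2 + h * (m + i) := by
      have : 0 ≤ h * (m + i) := by positivity
      omega
    by_cases hhi : h ≤ i - 1
    · have q0 : (m - i) * (2 + h * (m + i)) ≤ 0 :=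
        mul_nonpos_of_nonpos_of_nonneg (by omega) hq.le
      apply cfv_nonpos q0
      have q1 : A * (h - (i - 1)) ≤ 0 := mul_nonpos_of_nonneg_of_nonpos hA' (by omega)
      have q2 : B * (h - i) ≤ 0 := mul_nonpos_of_nonneg_of_nonpos hB'.le (by omega)
      nlinarith
    · have q0 : 0 ≤ (m - i) * (2 + h * (m + i)) :=
        mul_nonneg (by omega) hq.le
      apply cfv_pos q0
      have q1 : 0 ≤ A * (h - (i - 1)) := mul_nonneg hA' (by omega)
      have q2 : 0 ≤ B * (h - i) := mul_nonneg hB'.le (by omega)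
      nlinarith

/-- the last wedge -/
lemma CF_last (k : ℕ) (s t r : ℤ) (h1 : 1 ≤ k) (hr : 0 < r) (hs : s < (k : ℤ) ^ 2 * r)
    (hA : ff k k s t r < 0) : CF k ((k : ℤ) ^ 2) (-2 * k) 1 s t r := by
  have hK1 : 1 ≤ (k : ℤ) := by exact_mod_cast h1
  unfold CF
  generalize (k : ℤ) = K at *
  obtain ⟨A, hAe⟩ : ∃ A, A = K ^ 2 * r - s := ⟨_, rfl⟩
  obtain ⟨B, hBe⟩ : ∃ B, B = -ff K K s t r := ⟨_, rfl⟩
  have hA' : 0 < A := by omega
  have hB' : 0 < B := by omega
  have hs' : s = K ^ 2 * r - A := by rw [hAe]; ring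
  have ht : t = -2 * K * r - K * A - B := by rw [hAe, hBe]; unfold ff; ring
  clear hAe hBe hA
  subst hs' ht
  refine ⟨cfv_pos (by omega) (by omega), ?_, ?_⟩
  · have : K ^ 2 - K ^ 2 * 1 = 0 := by ring
    rw [this]; exact cfv_zero _
  · intro m hm1 hm2 h hh
    have ey : ff h m (K ^ 2) (-2 * K) 1 = (m - K) * (2 + h * (m + K)) := by unfold ff; ring
    have ex : ff h m (K ^ 2 * r - A) (-2 * K * r - K * A - B) r =
      r * ((m - K) * (2 + h * (m + K))) + A * (h - K) - B := by
      unfold ff; ring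
    rw [ey, ex]
    have hh0 : 0 ≤ h := by omega
    have hq : 0 < 2 + h * (m + K) := by
      have : 0 ≤ h * (m + K) := by positivity
      omega
    have q0 : (m - K) * (2 + h * (m + K)) ≤ 0 :=
      mul_nonpos_of_nonpos_of_nonneg (by omega) hq.le
    apply cfv_nonpos q0
    have q1 : A * (h - K) ≤ 0 := mul_nonpos_of_nonneg_of_nonpos hA'.le (by omega)
    nlinarith

theorem core_nonneg (k : ℕ) (hk : 1 ≤ k) (s t r : ℤ) (hr : 0 ≤ r)
    (hne : s ≠ 0 ∨ t ≠ 0 ∨ r ≠ 0) :
    ∃ s' t' r' : ℤ, (s' ≠ 0 ∨ t' ≠ 0 ∨ r' ≠ 0) ∧ CF k s' t' r' s t r ∧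
      (InK k s' t' r' ∨ InK k (-s') (-t') (-r')) := by
  rcases eq_or_lt_of_le hr with hr0 | hr0
  · subst hr0
    have hne' : s ≠ 0 ∨ t ≠ 0 := by omega
    by_cases hs : 0 ≤ s
    · by_cases ht : 0 ≤ t
      · exact ⟨s, t, 0, by omega, CF_self _ _ _ _, Or.inl (InK_level0 k s t hs ht hne')⟩
      · push Not at ht
        rcases eq_or_lt_of_le hs with hs0 | hs0
        · subst hs0
          refine ⟨0, t, 0, by omega, CF_self _ _ _ _, Or.inr ?_⟩
          simpa using InK_level0 k 0 (-t) le_rfl (by omega) (by omega)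
        · refine ⟨1, 0, 0, by omega, ⟨cfv_zero _, cfv_pos (by omega) (by omega), ?_⟩,
            Or.inl (InK_v k 0 le_rfl)⟩
          intro m hm1 hm2 h hh
          have ey : ff h m 1 0 0 = -h := by unfold ff; ring
          have ex : ff h m s t 0 = t - h * s := by unfold ff; ring
          rw [ey, ex]
          have hh0 : 0 ≤ h := by omega
          apply cfv_nonpos (by omega)
          nlinarith
    · push Not at hs
      by_cases ht : t ≤ 0
      · refine ⟨s, t, 0, by omega, CF_self _ _ _ _, Or.inr ?_⟩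
        simpa using InK_level0 k (-s) (-t) (by omega) (by omega) (by omega)
      · push Not at ht
        refine ⟨-1, 0, 0, by omega, ⟨cfv_zero _, cfv_nonpos (by omega) (by omega), ?_⟩,
            Or.inr (by simpa using InK_v k 0 le_rfl)⟩
        intro m hm1 hm2 h hh
        have ey : ff h m (-1) 0 0 = h := by unfold ff; ring
        have ex : ff h m s t 0 = t - h * s := by unfold ff; ring
        rw [ey, ex]
        have hh0 : 0 ≤ h := by omega
        apply cfv_pos (by omega)
        nlinarith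
  · have hkz : (1 : ℤ) ≤ k := by exact_mod_cast hk
    have hk2 : (1 : ℤ) ≤ (k : ℤ) ^ 2 := by nlinarith
    have hk3 := mul_nonneg (sub_nonneg.mpr hk2) hr0.le
    by_cases ht : -2 * r ≤ t
    · by_cases hs : s < r
      · refine ⟨-1, 0, 0, by omega, ⟨cfv_zero _, cfv_nonpos (by omega) ?_, ?_⟩,
            Or.inr (by simpa using InK_v k 0 le_rfl)⟩
        · linarith
        · intro m hm1 hm2 h hh
          have ey : ff h m (-1) 0 0 = h := by unfold ff; ring
          rw [ey]
          have hh0 : 0 ≤ h := by omega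
          apply cfv_pos (by omega)
          unfold ff
          have e1 : 0 ≤ t + 2 * m * r := by nlinarith
          have e2 : 1 ≤ m ^ 2 * r - s := by
            have hm3 : 1 ≤ m ^ 2 := by nlinarith
            have := mul_nonneg (sub_nonneg.mpr hm3) hr0.le
            linarith
          nlinarith
      · push Not at hs
        exact ⟨s, t, r, by omega, CF_self _ _ _ _,
          Or.inl (InK_corner k 1 s t r le_rfl hkz hr0 (by linarith) (by linarith))⟩
    · push Not at ht
      by_cases hs : (k : ℤ) ^ 2 * r ≤ s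
      · by_cases ht2 : -2 * k * r ≤ t
        · exact ⟨s, t, r, by omega, CF_self _ _ _ _,
            Or.inl (InK_corner k k s t r hkz le_rfl hr0 hs ht2)⟩
        · push Not at ht2
          refine ⟨0, -1, 0, by omega, ⟨cfv_zero _, ?_, ?_⟩,
            Or.inr (by simpa using InK_level0 k 0 1 (by omega) (by omega) (by omega))⟩
          · simpa using cfv_zero _
          · intro m hm1 hm2 h hh
            have ey : ff h m 0 (-1) 0 = -1 := by unfold ff; ring
            rw [ey]
            have hh0 : 0 ≤ h := by omega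
            apply cfv_nonpos (by omega)
            unfold ff
            have e1 : t + 2 * m * r ≤ -1 := by nlinarith
            have e2 : 0 ≤ s - m ^ 2 * r := by
              have : m ^ 2 * r ≤ (k : ℤ) ^ 2 * r := by
                apply mul_le_mul_of_nonneg_right _ hr0.le
                nlinarith
              linarith
            nlinarith
      · push Not at hs
        by_cases hex : ∃ i : ℕ, 1 ≤ i ∧ i ≤ k ∧ 0 ≤ ff i i s t r
        · classical
          obtain ⟨hi1, hi2, hi3⟩ := Nat.find_spec hex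
          have hmin := fun j (hj : j < Nat.find hex) => Nat.find_min hex hj
          set i := Nat.find hex with hi
          by_cases hw : ff ((i : ℤ) - 1) i s t r < 0
          · exact ⟨(i : ℤ) ^ 2, -2 * i, 1, by omega,
              CF_wedge k i s t r (by omega) (by omega) hr0 hi3 hw,
              Or.inl (InK_z k i (by omega) (by omega))⟩
          · push Not at hw
            have hi2' : 2 ≤ i := by
              by_contra hc
              have : i = 1 := by omega
              rw [this] at hw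
              unfold ff at hw
              norm_num at hw
              linarith
            have hj := hmin (i - 1) (by omega)
            push Not at hj
            have hj' := hj (by omega) (by omega)
            obtain ⟨j, hje⟩ : ∃ j : ℤ, j = (i : ℤ) - 1 := ⟨_, rfl⟩
            have hj1 : ((i - 1 : ℕ) : ℤ) = j := by omega
            have hi' : (i : ℤ) = j + 1 := by omega
            rw [hj1] at hj'
            rw [← hje, hi'] at hw
            by_cases hX : 0 ≤ 2 * s + (2 * j + 1) * t + (2 * j ^ 2 + 2 * j) * r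
            · exact ⟨s, t, r, by omega, CF_self _ _ _ _,
                Or.inl (InK_strip k j s t r (by omega) (by omega) hr0 hj' hw hX)⟩
            · push Not at hX
              refine ⟨-1, -j, 0, by omega,
                CF_strip k j s t r (by omega) (by omega) hr0 hs hj' hw hX, Or.inr ?_⟩
              simpa using InK_v k j (by omega)
        · push Not at hex
          have := hex k hk le_rfl
          exact ⟨(k : ℤ) ^ 2, -2 * k, 1, by omega, CF_last k s t r hk hr0 hs this,
            Or.inl (InK_z k k hkz le_rfl)⟩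

lemma CF_neg {k : ℕ} {s' t' r' s t r : ℤ} (h : CF k s' t' r' s t r) :
    CF k (-s') (-t') (-r') (-s) (-t) (-r) := by
  obtain ⟨h1, h2, h3⟩ := h
  refine ⟨cfv_neg h1, ?_, ?_⟩
  · have := cfv_neg h2
    have e1 : -(s' - (k : ℤ) ^ 2 * r') = -s' - (k : ℤ) ^ 2 * -r' := by ring
    have e2 : -(s - (k : ℤ) ^ 2 * r) = -s - (k : ℤ) ^ 2 * -r := by ring
    rwa [e1, e2] at this
  · intro m hm1 hm2 h hh
    have := cfv_neg (h3 m hm1 hm2 h hh)
    have e1 : ∀ s t r, -ff h m s t r = ff h m (-s) (-t) (-r) := by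
      intro s t r; unfold ff; ring
    rwa [e1, e1] at this

theorem core (k : ℕ) (hk : 1 ≤ k) (s t r : ℤ)
    (hne : s ≠ 0 ∨ t ≠ 0 ∨ r ≠ 0) :
    ∃ s' t' r' : ℤ, (s' ≠ 0 ∨ t' ≠ 0 ∨ r' ≠ 0) ∧ CF k s' t' r' s t r ∧
      (InK k s' t' r' ∨ InK k (-s') (-t') (-r')) := by
  rcases le_total 0 r with hr | hr
  · exact core_nonneg k hk s t r hr hne
  · obtain ⟨s', t', r', h1, h2, h3⟩ := core_nonneg k hk (-s) (-t) (-r) (by omega) (by omega)
    refine ⟨-s', -t', -r', by omega, ?_, ?_⟩
    · simpa using CF_neg h2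
    · simpa using h3.symm

end Pool.Agent.H714R3
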