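import Mathlib
import Pool.Agent.H714R3.GroebC
import Pool.Agent.H714R3.GroebD

set_option autoImplicit false

namespace Pool.Agent.H714R3

/-- coefficient triples of the line functionals -/
def ffc (h m : ℤ) : ℤ × ℤ × ℤ := (-h, 1, 2 * m + h * m ^ 2)

/-- coefficient triples of the rows -/
def rc (k c : ℕ) : ℤ × ℤ × ℤ :=
  if c = 0 then (0, 0, 1)
  else if c = 1 then (0, 1, 2)
  else if c = 2 then (1, 0, -(k : ℤ) ^ 2)
  else if c = 3 then (0, 0, -1)
  else if c = 4 then (-1, 0, (k : ℤ) ^ 2)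
  else if (c - 5) % 4 = 0 then ffc (((c - 5) / 4 : ℕ) : ℤ) ((((c - 5) / 4 : ℕ) : ℤ) + 1)
  else if (c - 5) % 4 = 1 then -ffc (((c - 5) / 4 : ℕ) : ℤ) ((((c - 5) / 4 : ℕ) : ℤ) + 1)
  else if (c - 5) % 4 = 2 then
    ffc ((((c - 5) / 4 : ℕ) : ℤ) + 1) ((((c - 5) / 4 : ℕ) : ℤ) + 1)
  else -ffc ((((c - 5) / 4 : ℕ) : ℤ) + 1) ((((c - 5) / 4 : ℕ) : ℤ) + 1)

/-- evaluation of a coefficient triple -/
def ev (T : ℤ × ℤ × ℤ) (x : Fin 3 → ℤ) : ℤ := T.1 * x 0 + T.2.1 * x 1 + T.2.2 * x 2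

lemma ev_neg (T : ℤ × ℤ × ℤ) (x : Fin 3 → ℤ) : ev (-T) x = - ev T x := by
  simp [ev]; ring

lemma ev_ffc (h m : ℤ) (x : Fin 3 → ℤ) : ev (ffc h m) x = ff h m (x 0) (x 1) (x 2) := by
  simp [ev, ffc, ff]; ring

/-- the linear map -/
def GG (k : ℕ) : (Fin 3 → ℤ) →ₗ[ℤ] (Fin (5 + 4 * k) → ℤ) where
  toFun x c := ev (rc k c) x
  map_add' := by intro x y; funext c; simp [ev]; ring
  map_smul' := by intro a x; funext c; simp [ev]; ring

lemma GG_apply (k : ℕ) (x : Fin 3 → ℤ) (c : Fin (5 + 4 * k)) : GG k x c = ev (rc k c) x := rfl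

lemma rc_0 (k : ℕ) : rc k 0 = (0, 0, 1) := by simp [rc]
lemma rc_1 (k : ℕ) : rc k 1 = (0, 1, 2) := by simp [rc]
lemma rc_2 (k : ℕ) : rc k 2 = (1, 0, -(k : ℤ) ^ 2) := by simp [rc]
lemma rc_3 (k : ℕ) : rc k 3 = (0, 0, -1) := by simp [rc]
lemma rc_4 (k : ℕ) : rc k 4 = (-1, 0, (k : ℤ) ^ 2) := by simp [rc]

lemma rc_a (k i : ℕ) : rc k (5 + 4 * i) = ffc i (i + 1) := by
  have h1 : (5 + 4 * i - 5) % 4 = 0 := by omega
  have h2 : (5 + 4 * i - 5) / 4 = i := by omega
  unfold rc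
  rw [if_neg (by omega), if_neg (by omega), if_neg (by omega), if_neg (by omega),
    if_neg (by omega), if_pos h1, h2]

lemma rc_b (k i : ℕ) : rc k (5 + 4 * i + 1) = -ffc i (i + 1) := by
  have h1 : (5 + 4 * i + 1 - 5) % 4 = 1 := by omega
  have h2 : (5 + 4 * i + 1 - 5) / 4 = i := by omega
  unfold rc
  rw [if_neg (by omega), if_neg (by omega), if_neg (by omega), if_neg (by omega),
    if_neg (by omega), if_neg (by omega), if_pos h1, h2]

lemma rc_c (k i : ℕ) : rc k (5 + 4 * i + 2) = ffc (i + 1) (i + 1) := by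
  have h1 : (5 + 4 * i + 2 - 5) % 4 = 2 := by omega
  have h2 : (5 + 4 * i + 2 - 5) / 4 = i := by omega
  unfold rc
  rw [if_neg (by omega), if_neg (by omega), if_neg (by omega), if_neg (by omega),
    if_neg (by omega), if_neg (by omega), if_neg (by omega), if_pos h1, h2]

lemma rc_d (k i : ℕ) : rc k (5 + 4 * i + 3) = -ffc (i + 1) (i + 1) := by
  have h2 : (5 + 4 * i + 3 - 5) / 4 = i := by omega
  unfold rc
  rw [if_neg (by omega), if_neg (by omega), if_neg (by omega), if_neg (by omega),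
    if_neg (by omega), if_neg (by omega), if_neg (by omega), if_neg (by omega), h2]

lemma cases_idx (k c : ℕ) (hc : c < 5 + 4 * k) :
    c = 0 ∨ c = 1 ∨ c = 2 ∨ c = 3 ∨ c = 4 ∨ ∃ i, i < k ∧
      (c = 5 + 4 * i ∨ c = 5 + 4 * i + 1 ∨ c = 5 + 4 * i + 2 ∨ c = 5 + 4 * i + 3) := by
  by_cases h : c < 5
  · omega
  · right; right; right; right; right
    exact ⟨(c - 5) / 4, by omega, by omega⟩

lemma GG_neg (k : ℕ) (hk : 1 ≤ k) (c : Fin (5 + 4 * k)) : ∃ c', ∀ x, GG k x c' = - GG k x c := by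
  obtain ⟨c, hc⟩ := c
  have key : ∃ d, d < 5 + 4 * k ∧ rc k d = - rc k c := by
    rcases cases_idx k c hc with h | h | h | h | h | ⟨i, hi, h | h | h | h⟩
    · exact ⟨3, by omega, by subst h; rw [rc_0, rc_3]; rfl⟩
    · refine ⟨5 + 4 * 0 + 1, by omega, ?_⟩
      subst h
      have h := rc_b k 0
      rw [h, rc_1]
      simp [ffc]
    · exact ⟨4, by omega, by subst h; rw [rc_2, rc_4]; simp⟩
    · exact ⟨0, by omega, by subst h; rw [rc_0, rc_3]; rfl⟩
    · exact ⟨2, by omega, by subst h; rw [rc_2, rc_4]; simp⟩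
    · exact ⟨5 + 4 * i + 1, by omega, by subst h; rw [rc_a, rc_b]⟩
    · exact ⟨5 + 4 * i, by omega, by subst h; rw [rc_a, rc_b]; simp⟩
    · exact ⟨5 + 4 * i + 3, by omega, by subst h; rw [rc_c, rc_d]⟩
    · exact ⟨5 + 4 * i + 2, by omega, by subst h; rw [rc_c, rc_d]; simp⟩
  obtain ⟨d, hd, he⟩ := key
  refine ⟨⟨d, hd⟩, ?_⟩
  intro x
  rw [GG_apply, GG_apply]
  simp only
  rw [he, ev_neg]

lemma GG_0 (k : ℕ) (x : Fin 3 → ℤ) : GG k x ⟨0, by omega⟩ = x 2 := by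
  rw [GG_apply]; simp only; rw [rc_0]; simp [ev]

lemma GG_1 (k : ℕ) (x : Fin 3 → ℤ) : GG k x ⟨1, by omega⟩ = x 1 + 2 * x 2 := by
  rw [GG_apply]; simp only; rw [rc_1]; simp [ev]

lemma GG_2 (k : ℕ) (x : Fin 3 → ℤ) : GG k x ⟨2, by omega⟩ = x 0 - (k : ℤ) ^ 2 * x 2 := by
  rw [GG_apply]; simp only; rw [rc_2]; simp [ev]; ring

lemma GG_inj (k : ℕ) : Function.Injective (GG k) := by
  rw [← LinearMap.ker_eq_bot, LinearMap.ker_eq_bot']
  intro x hx
  have h0 := congrFun hx ⟨0, by omega⟩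
  have h1 := congrFun hx ⟨1, by omega⟩
  have h2 := congrFun hx ⟨2, by omega⟩
  rw [GG_0] at h0
  rw [GG_1] at h1
  rw [GG_2] at h2
  simp only [Pi.zero_apply] at h0 h1 h2
  rw [h0] at h1 h2
  funext i
  fin_cases i
  · simpa using h2
  · simpa using h1
  · simpa using h0

lemma cf_of_CF (k : ℕ) (hk : 1 ≤ k) (y x : Fin 3 → ℤ) (h : CF k (y 0) (y 1) (y 2) (x 0) (x 1) (x 2)) :
    cf (GG k) y x := by
  obtain ⟨h1, h2, h3⟩ := h
  intro c
  obtain ⟨c, hc⟩ := c
  show cfv (GG k y ⟨c, hc⟩) (GG k x ⟨c, hc⟩)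
  rw [GG_apply, GG_apply]
  simp only
  rcases cases_idx k c hc with h | h | h | h | h | ⟨i, hi, h | h | h | h⟩
  · subst h; rw [rc_0]; simpa [ev] using h1
  · subst h; rw [rc_1]
    have := h3 1 le_rfl (by omega) 0 (Or.inl (by norm_num))
    simpa [ev, ff] using this
  · subst h; rw [rc_2]
    have e : ∀ x : Fin 3 → ℤ, ev (1, 0, -(k : ℤ) ^ 2) x = x 0 - (k : ℤ) ^ 2 * x 2 := by
      intro x; simp [ev]; ring
    rw [e, e]; exact h2
  · subst h; rw [rc_3]
    have := cfv_neg h1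
    simpa [ev] using this
  · subst h; rw [rc_4]
    have e : ∀ x : Fin 3 → ℤ, ev (-1, 0, (k : ℤ) ^ 2) x = -(x 0 - (k : ℤ) ^ 2 * x 2) := by
      intro x; simp [ev]; ring
    rw [e, e]; exact cfv_neg h2
  · subst h; rw [rc_a, ev_ffc, ev_ffc]
    exact h3 _ (by omega) (by omega) _ (Or.inl (by ring))
  · subst h; rw [rc_b, ev_neg, ev_neg, ev_ffc, ev_ffc]
    exact cfv_neg (h3 _ (by omega) (by omega) _ (Or.inl (by ring)))
  · subst h; rw [rc_c, ev_ffc, ev_ffc]
    exact h3 _ (by omega) (by omega) _ (Or.inr rfl)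
  · subst h; rw [rc_d, ev_neg, ev_neg, ev_ffc, ev_ffc]
    exact cfv_neg (h3 _ (by omega) (by omega) _ (Or.inr rfl))

lemma pr_smul_int {n : ℕ} (w : Fin n → ℝ) (a : ℤ) (u : Fin n → ℤ) :
    pr w (a • u) = a * pr w u := by
  simp only [pr, Pi.smul_apply, smul_eq_mul, Finset.mul_sum]
  apply Finset.sum_congr rfl
  intro i _
  push_cast
  ring

lemma pr_GG (k : ℕ) (w : Fin (5 + 4 * k) → ℝ) (x : Fin 3 → ℤ) :
    pr w (GG k x) = pr w (GG k ![1, 0, 0]) * x 0 + pr w (GG k ![0, 1, 0]) * x 1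
      + pr w (GG k ![0, 0, 1]) * x 2 := by
  have hx : x = x 0 • ![1, 0, 0] + x 1 • ![0, 1, 0] + x 2 • ![0, 0, 1] := by
    funext i; fin_cases i <;> simp
  conv_lhs => rw [hx]
  rw [map_add, map_add, map_smul, map_smul, map_smul, pr_add, pr_add, pr_smul_int, pr_smul_int,
    pr_smul_int]
  ring

/-- generators of the cone -/
def Gen (k : ℕ) : Fin k ⊕ Bool → (Fin 3 → ℤ)
  | Sum.inl i => ![((i : ℤ) + 1) ^ 2, -2 * ((i : ℤ) + 1), 1]
  | Sum.inr true => ![1, 0, 0]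
  | Sum.inr false => ![0, 1, 0]

lemma InK_imp (k : ℕ) (y : Fin 3 → ℤ) (h : InK k (y 0) (y 1) (y 2)) :
    lpos (GG k y) ∧ ∀ w, (∀ g, 0 < pr w (GG k (Gen k g))) → 0 < pr w (GG k y) := by
  obtain ⟨h1, h2⟩ := h
  constructor
  · rcases h1 with h1 | ⟨h1, h3, h4, h5⟩
    · refine ⟨⟨0, by omega⟩, by rw [GG_0]; exact h1, ?_⟩
      intro c' hc'
      exfalso
      have : (c' : ℕ) < 0 := hc'
      omega
    · by_cases ht : y 1 = 0
      · refine ⟨⟨2, by omega⟩, by rw [GG_2, h1]; simp; omega, ?_⟩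
        intro c' hc'
        have h7 : (c' : ℕ) < 2 := hc'
        rcases (show (c' : ℕ) = 0 ∨ (c' : ℕ) = 1 by omega) with h8 | h8
        · have : c' = ⟨0, by omega⟩ := Fin.ext h8
          rw [this, GG_0, h1]
        · have : c' = ⟨1, by omega⟩ := Fin.ext h8
          rw [this, GG_1, h1, ht]; simp
      · refine ⟨⟨1, by omega⟩, by rw [GG_1, h1]; simp; omega, ?_⟩
        intro c' hc'
        have h7 : (c' : ℕ) < 1 := hc'
        have h8 : (c' : ℕ) = 0 := by omega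
        have : c' = ⟨0, by omega⟩ := Fin.ext h8
        rw [this, GG_0, h1]
  · intro w hw
    have ha := hw (Sum.inr true)
    have hb := hw (Sum.inr false)
    simp only [Gen] at ha hb
    have := h2 (pr w (GG k ![1, 0, 0])) (pr w (GG k ![0, 1, 0])) (pr w (GG k ![0, 0, 1])) ha hb ?_
    · rw [pr_GG]; exact this
    · intro m hm1 hm2
      have hz := hw (Sum.inl ⟨(m - 1).toNat, by omega⟩)
      simp only [Gen] at hz
      rw [pr_GG] at hz
      have e : (((m - 1).toNat : ℕ) : ℤ) + 1 = m := by omega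
      simp only [e] at hz
      simp only [Matrix.cons_val_zero, Matrix.cons_val_one, Matrix.cons_val] at hz
      push_cast at hz
      linarith

lemma hP (k : ℕ) (hk : 1 ≤ k) : ∀ x, x ≠ 0 → ∃ y, y ≠ 0 ∧ cf (GG k) y x ∧
      ((lpos (GG k y) ∧ ∀ w, (∀ g, 0 < pr w (GG k (Gen k g))) → 0 < pr w (GG k y)) ∨
       (lpos (GG k (-y)) ∧ ∀ w, (∀ g, 0 < pr w (GG k (Gen k g))) → 0 < pr w (GG k (-y)))) := by
  intro x hx
  have hne : x 0 ≠ 0 ∨ x 1 ≠ 0 ∨ x 2 ≠ 0 := by
    by_contra hcon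
    push Not at hcon
    apply hx
    funext i
    fin_cases i
    · exact hcon.1
    · exact hcon.2.1
    · exact hcon.2.2
  obtain ⟨s, t, r, h1, h2, h3⟩ := core k hk (x 0) (x 1) (x 2) hne
  refine ⟨![s, t, r], ?_, ?_, ?_⟩
  · intro h0
    have e0 := congrFun h0 0
    have e1 := congrFun h0 1
    have e2 := congrFun h0 2
    simp at e0 e1 e2
    omega
  · apply cf_of_CF k hk
    simpa using h2
  · rcases h3 with h3 | h3
    · left
      apply InK_imp
      simpa using h3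
    · right
      apply InK_imp
      simpa using h3

/-- weights supported on the first three coordinates -/
noncomputable def wv (k : ℕ) (a b c : ℝ) : Fin (5 + 4 * k) → ℝ :=
  Pi.single ⟨0, by omega⟩ a + Pi.single ⟨1, by omega⟩ b + Pi.single ⟨2, by omega⟩ c

lemma pr_single {n : ℕ} (i : Fin n) (a : ℝ) (u : Fin n → ℤ) : pr (Pi.single i a) u = a * u i := by
  simp only [pr]
  rw [Finset.sum_eq_single i]
  · simp
  · intro j _ hj
    simp [Pi.single_apply, hj]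
  · intro h; exact absurd (Finset.mem_univ _) h

lemma pr_add_left {n : ℕ} (w v : Fin n → ℝ) (u : Fin n → ℤ) : pr (w + v) u = pr w u + pr v u := by
  simp [pr, add_mul, Finset.sum_add_distrib]

lemma pr_wv (k : ℕ) (a b c : ℝ) (x : Fin 3 → ℤ) :
    pr (wv k a b c) (GG k x) = a * x 2 + b * (x 1 + 2 * x 2) + c * (x 0 - (k : ℝ) ^ 2 * x 2) := by
  unfold wv
  rw [pr_add_left, pr_add_left, pr_single, pr_single, pr_single, GG_0, GG_1, GG_2]
  push_cast
  ring

/-- the supporting weights -/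
noncomputable def wt (k : ℕ) (i : Fin k) : Fin (5 + 4 * k) → ℝ :=
  wv k (((i : ℝ) + 1) ^ 2 + (k : ℝ) ^ 2 - 2 * ((i : ℝ) + 1)) ((i : ℝ) + 1) 1

lemma pr_wt (k : ℕ) (i : Fin k) (x : Fin 3 → ℤ) :
    pr (wt k i) (GG k x) = x 0 + ((i : ℝ) + 1) * x 1 + ((i : ℝ) + 1) ^ 2 * x 2 := by
  unfold wt
  rw [pr_wv]; ring

theorem facets_GG (k : ℕ) (hk : 1 ≤ k) :
    (k : ℕ∞) ≤ Set.encard {F : Set (Fin (5 + 4 * k) → ℝ) | ∃ c : Fin (5 + 4 * k) → ℝ,
        (∀ w ∈ closure (C0 (latI (LinearMap.range (GG k)))), 0 ≤ ∑ i, c i * w i) ∧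
        F = {w | w ∈ closure (C0 (latI (LinearMap.range (GG k)))) ∧ ∑ i, c i * w i = 0} ∧
        Module.finrank ℝ (Submodule.span ℝ F) + 1 =
          Module.finrank ℝ (Submodule.span ℝ (closure (C0 (latI (LinearMap.range (GG k))))))} := by
  refine facets (GG k) (GG_inj k) (GG_neg k hk) (Gen k) (hP k hk)
    (wv k ((k : ℝ) ^ 2 + 2 * k - 1) 1 1) ?_ (fun i => Sum.inl i) ?_ ?_ ?_ (wt k) ?_ ?_
  · intro g
    rw [pr_wv]
    rcases g with i | b
    · simp only [Gen]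
      simp only [Matrix.cons_val_zero, Matrix.cons_val_one, Matrix.cons_val]
      push_cast
      have : (0 : ℝ) < k := by exact_mod_cast hk
      nlinarith [sq_nonneg ((i : ℝ))]
    · cases b <;> simp [Gen]
  · intro i j hij
    simp only [Gen] at hij
    have := congrFun hij 1
    simp only [Matrix.cons_val_one, Matrix.cons_val_zero] at this
    apply Fin.ext
    omega
  · intro i
    refine (InK_imp k _ ?_).1
    simp only [Gen, Matrix.cons_val_zero, Matrix.cons_val_one, Matrix.cons_val]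
    exact InK_z k _ (by omega) (by omega)
  · intro i y hy
    -- primitivity
    have h0 := hy ⟨0, by omega⟩
    have h1 := hy ⟨5 + 4 * i, by omega⟩
    have h2 := hy ⟨5 + 4 * i + 2, by omega⟩
    rw [GG_0, GG_0] at h0
    rw [GG_apply, GG_apply] at h1 h2
    simp only at h1 h2
    rw [rc_a, ev_ffc, ev_ffc] at h1
    rw [rc_c, ev_ffc, ev_ffc] at h2
    simp only [Gen, Matrix.cons_val_zero, Matrix.cons_val_one, Matrix.cons_val] at h0 h1 h2
    have e1 : ff (i : ℤ) ((i : ℤ) + 1) (((i : ℤ) + 1) ^ 2) (-2 * ((i : ℤ) + 1)) 1 = 0 := by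
      unfold ff; ring
    have e2 : ff ((i : ℤ) + 1) ((i : ℤ) + 1) (((i : ℤ) + 1) ^ 2) (-2 * ((i : ℤ) + 1)) 1 = 0 := by
      unfold ff; ring
    rw [e1] at h1
    rw [e2] at h2
    have h1' : ff (i : ℤ) ((i : ℤ) + 1) (y 0) (y 1) (y 2) = 0 := by omega
    have h2' : ff ((i : ℤ) + 1) ((i : ℤ) + 1) (y 0) (y 1) (y 2) = 0 := by omega
    have hs : y 0 = ((i : ℤ) + 1) ^ 2 * y 2 := by
      have : ff (i : ℤ) ((i : ℤ) + 1) (y 0) (y 1) (y 2)
        - ff ((i : ℤ) + 1) ((i : ℤ) + 1) (y 0) (y 1) (y 2) = y 0 - ((i : ℤ) + 1) ^ 2 * y 2 := by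
        unfold ff; ring
      rw [h1', h2'] at this
      linarith
    have ht : y 1 = -2 * ((i : ℤ) + 1) * y 2 := by
      unfold ff at h1'
      rw [hs] at h1'
      linarith
    rcases (show y 2 = 0 ∨ y 2 = 1 by omega) with hr | hr
    · left
      rw [hr] at hs ht
      funext c
      fin_cases c
      · simpa using hs
      · simpa using ht
      · simpa using hr
    · right
      rw [hr] at hs ht
      funext c
      fin_cases c
      · simpa [Gen] using hs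
      · simpa [Gen] using ht
      · simpa [Gen] using hr
  · intro i
    rw [pr_wt]
    simp only [Gen, Matrix.cons_val_zero, Matrix.cons_val_one, Matrix.cons_val]
    push_cast
    ring
  · intro i g hg
    rw [pr_wt]
    rcases g with j | b
    · simp only [Gen, Matrix.cons_val_zero, Matrix.cons_val_one, Matrix.cons_val]
      push_cast
      have hij : (j : ℕ) ≠ i := by
        intro h
        apply hg
        have : j = i := Fin.ext h
        rw [this]
      have h2 : ((j : ℝ) - i) ≠ 0 := by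
        intro h
        apply hij
        have : (j : ℝ) = i := by linarith
        exact_mod_cast this
      have h3 : 0 < ((j : ℝ) - i) ^ 2 := by positivity
      nlinarith
    · cases b
      · simp [Gen]; positivity
      · simp [Gen]

lemma finrank_range (k : ℕ) : Module.finrank ℤ (LinearMap.range (GG k)) = 3 := by
  rw [LinearMap.finrank_range_of_inj (GG_inj k)]
  simp

lemma saturated (k : ℕ) : ∀ v : Fin (5 + 4 * k) → ℤ, ∀ c : ℤ, c ≠ 0 →
    c • v ∈ LinearMap.range (GG k) → v ∈ LinearMap.range (GG k) := by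
  rintro v c hc ⟨x, hx⟩
  have h0 := congrFun hx ⟨0, by omega⟩
  have h1 := congrFun hx ⟨1, by omega⟩
  have h2 := congrFun hx ⟨2, by omega⟩
  rw [GG_0] at h0
  rw [GG_1] at h1
  rw [GG_2] at h2
  simp only [Pi.smul_apply, smul_eq_mul] at h0 h1 h2
  set v0 := v ⟨0, by omega⟩
  set v1 := v ⟨1, by omega⟩
  set v2 := v ⟨2, by omega⟩
  refine ⟨![v2 + (k : ℤ) ^ 2 * v0, v1 - 2 * v0, v0], ?_⟩
  have hcx : x = c • ![v2 + (k : ℤ) ^ 2 * v0, v1 - 2 * v0, v0] := by
    funext i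
    fin_cases i
    · simp; rw [h0] at h2; linear_combination h2
    · simp; rw [h0] at h1; linear_combination h1
    · simp [h0]
  rw [hcx, map_smul] at hx
  funext i
  have := congrFun hx i
  simp only [Pi.smul_apply, smul_eq_mul] at this
  exact mul_left_cancel₀ hc this

lemma nonneg_zero (k : ℕ) (hk : 1 ≤ k) : ∀ v ∈ LinearMap.range (GG k), (∀ i, 0 ≤ v i) → v = 0 := by
  rintro v ⟨x, rfl⟩ h
  funext c
  obtain ⟨c', hc'⟩ := GG_neg k hk c
  have h1 := h c
  have h2 := h c'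
  rw [hc'] at h2
  simp only [Pi.zero_apply]
  omega

end Pool.Agent.H714R3
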