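import Mathlib

set_option autoImplicit false

universe u

namespace Pool.Agent.H714R3

open MvPolynomial

/-- the lexicographic order, with its synonym type lifted to an arbitrary universe -/
noncomputable def lexU (n : ℕ) : MonomialOrder.{0, u} (Fin n) :=
  let lo : LinearOrder (ULift.{u} (Lex (Fin n →₀ ℕ))) := LinearOrder.lift' ULift.down ULift.down_injective
  { syn := ULift.{u} (Lex (Fin n →₀ ℕ))
    addCommMonoidSyn := inferInstance
    linearOrderSyn := lo
    isOrderedAddMonoid_syn :=
      @IsOrderedAddMonoid.mk _ _ lo.toPartialOrder.toPreorder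
        (by
          intro a b hab c
          show (a + c).down ≤ (b + c).down
          have h : a.down ≤ b.down := hab
          simp only [ULift.add_down]
          exact add_le_add_left h _)
        (by
          intro a b hab c
          show (c + a).down ≤ (c + b).down
          have h : a.down ≤ b.down := hab
          simp only [ULift.add_down]
          exact add_le_add_right h _)
    toSyn := (MonomialOrder.lex (σ := Fin n)).toSyn.trans AddEquiv.ulift.symm
    toSyn_monotone := by
      intro a b hab
      show (MonomialOrder.lex (σ := Fin n)).toSyn a ≤ (MonomialOrder.lex (σ := Fin n)).toSyn b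
      exact (MonomialOrder.lex (σ := Fin n)).toSyn_monotone hab
    wellFoundedLT_syn := by
      constructor
      have : WellFounded (fun a b : Lex (Fin n →₀ ℕ) => a < b) :=
        (MonomialOrder.lex (σ := Fin n)).wellFoundedLT_syn.wf
      exact InvImage.wf (fun x : ULift.{u} (Lex (Fin n →₀ ℕ)) => x.down) this }

lemma lexU_le_iff (n : ℕ) (a b : Fin n →₀ ℕ) :
    (lexU.{u} n).toSyn a ≤ (lexU.{u} n).toSyn b ↔
      (MonomialOrder.lex (σ := Fin n)).toSyn a ≤ (MonomialOrder.lex (σ := Fin n)).toSyn b :=
  Iff.rfl

lemma lexU_degree (n : ℕ) (f : MvPolynomial (Fin n) ℚ) :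
    (lexU.{u} n).degree f = MonomialOrder.lex.degree f := by
  by_cases hf : f = 0
  · subst hf; simp
  · have h1 := (lexU.{u} n).degree_mem_support hf
    have h2 := (MonomialOrder.lex (σ := Fin n)).degree_mem_support hf
    have h3 := (lexU.{u} n).le_degree h2
    have h4 := (MonomialOrder.lex (σ := Fin n)).le_degree h1
    rw [lexU_le_iff] at h3
    exact (MonomialOrder.lex (σ := Fin n)).toSyn.injective (le_antisymm h4 h3)

end Pool.Agent.H714R3
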